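import Mathlib

/-!
# MP_b90bcc_co: partial order decompositions of tournaments are not locally controlled
-/

namespace Pool.Agent.Results.MP_b90bcc_co.LocalToGlobalFails

/-- `r` is the arc relation of a tournament: no loops, and for distinct `u`, `v` exactly one of
`r u v`, `r v u` holds. -/
structure IsTournament {V : Type} (r : V → V → Prop) : Prop where
  irrefl : ∀ v, ¬ r v v
  total : ∀ u v, u ≠ v → (r u v ∨ r v u)
  asymm : ∀ u v, r u v → ¬ r v u

/-- `P` is a partial order decomposition of `r` into `m` parts: each part is a transitive set of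
arcs and the parts cover all arcs. -/
def IsPOD {V : Type} (r : V → V → Prop) (m : ℕ) (P : Fin m → V → V → Prop) : Prop :=
  (∀ i u v, P i u v → r u v) ∧ (∀ i a b c, P i a b → P i b c → P i a c) ∧
    ∀ u v, r u v → ∃ i, P i u v

/-- The partial order decomposition number. -/
noncomputable def pod {V : Type} (r : V → V → Prop) : ℕ :=
  sInf {m : ℕ | ∃ P : Fin m → V → V → Prop, IsPOD r m P}

/-- The subtournament on `X`. -/
def induced {V : Type} (r : V → V → Prop) (X : Finset V) : X → X → Prop := fun a b => r a b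

/-- Some tournament on at most `k` vertices has `pod ≥ s`. -/
def Admissible (k s : ℕ) : Prop :=
  ∃ (V : Type) (_ : Fintype V) (r : V → V → Prop), IsTournament r ∧ Fintype.card V ≤ k ∧ s ≤ pod r

/-- There is `N` such that every finite tournament with `pod ≥ N` has a subtournament of size at
most `k` with `pod ≥ s`. -/
def LocalToGlobal (k s : ℕ) : Prop :=
  ∃ N : ℕ, ∀ (V : Type) (_ : Fintype V) (r : V → V → Prop), IsTournament r → N ≤ pod r →
    ∃ X : Finset V, X.card ≤ k ∧ s ≤ pod (induced r X)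

/-! ### General facts on `pod` -/

lemma pod_le {V : Type} {r : V → V → Prop} {m : ℕ} {P : Fin m → V → V → Prop}
    (h : IsPOD r m P) : pod r ≤ m := Nat.sInf_le ⟨P, h⟩

lemma pod_nonempty {V : Type} [Finite V] {r : V → V → Prop} (hr : IsTournament r) :
    {m : ℕ | ∃ P : Fin m → V → V → Prop, IsPOD r m P}.Nonempty := by
  obtain ⟨m, ⟨e⟩⟩ := Finite.exists_equiv_fin (V × V)
  refine ⟨m, fun i u v => r u v ∧ e (u, v) = i, fun i u v h => h.1, ?_, ?_⟩
  · rintro i a b c ⟨h1, h2⟩ ⟨h3, h4⟩
    have : (a, b) = (b, c) := e.injective (h2.trans h4.symm)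
    have hab : a = b := congrArg Prod.fst this
    subst hab
    exact absurd h1 (hr.irrefl _)
  · intro u v h
    exact ⟨e (u, v), h, rfl⟩

lemma le_pod {V : Type} [Finite V] {r : V → V → Prop} (hr : IsTournament r) {N : ℕ}
    (h : ∀ m : ℕ, ∀ P : Fin m → V → V → Prop, IsPOD r m P → N ≤ m) : N ≤ pod r := by
  obtain ⟨P, hP⟩ := Nat.sInf_mem (pod_nonempty hr)
  exact h _ P hP

lemma induced_tournament {V : Type} {r : V → V → Prop} (hr : IsTournament r) (X : Finset V) :
    IsTournament (induced r X) where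
  irrefl _ := hr.irrefl _
  total _ _ h := hr.total _ _ (fun h' => h (Subtype.ext h'))
  asymm _ _ h := hr.asymm _ _ h

/-- A tournament with `pod ≥ 2` has a cyclic triangle. -/
lemma exists_triangle {V : Type} {r : V → V → Prop} (hr : IsTournament r) (h : 2 ≤ pod r) :
    ∃ a b c, r a b ∧ r b c ∧ r c a := by
  by_contra hcon
  push Not at hcon
  have : pod r ≤ 1 := by
    refine pod_le (P := fun _ => r) ⟨fun _ _ _ h => h, ?_, fun u v h => ⟨0, h⟩⟩
    intro _ a b c hab hbc
    by_contra hac
    by_cases hne : a = c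
    · subst hne
      exact hr.asymm _ _ hab hbc
    · rcases hr.total a c hne with h1 | h1
      · exact hac h1
      · exact hcon a b c hab hbc h1
  omega

lemma three_le_of_triangle {V : Type} [Finite V] {r : V → V → Prop} (hr : IsTournament r)
    {a b c : V} (h1 : r a b) (h2 : r b c) (h3 : r c a) : 3 ≤ pod r := by
  refine le_pod hr fun m P hP => ?_
  obtain ⟨i, hi⟩ := hP.2.2 a b h1
  obtain ⟨j, hj⟩ := hP.2.2 b c h2
  obtain ⟨l, hl⟩ := hP.2.2 c a h3
  have hij : i ≠ j := by
    rintro rfl
    exact hr.asymm _ _ h3 (hP.1 _ _ _ (hP.2.1 _ _ _ _ hi hj))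
  have hjl : j ≠ l := by
    rintro rfl
    exact hr.asymm _ _ h1 (hP.1 _ _ _ (hP.2.1 _ _ _ _ hj hl))
  have hil : i ≠ l := by
    rintro rfl
    exact hr.asymm _ _ h2 (hP.1 _ _ _ (hP.2.1 _ _ _ _ hl hi))
  have := Finset.card_le_univ ({i, j, l} : Finset (Fin m))
  rw [Finset.card_eq_three.2 ⟨i, j, l, hij, hil, hjl, rfl⟩] at this
  simpa using this

/-- If the set of reversed pairs is bipartite then three partial orders suffice. -/
lemma pod_le_three {V : Type} [LinearOrder V] {A : V → V → Prop}
    {r : V → V → Prop} (hr : ∀ x y, r x y ↔ (x < y ∧ ¬ A x y) ∨ (y < x ∧ A x y))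
    (f : V → Bool) (hf : ∀ x y, A x y → f x ≠ f y) : pod r ≤ 3 := by
  classical
  refine pod_le (m := 3) (P := fun i x y => r x y ∧
    ((i = 0 ∧ f x = true ∧ f y = false) ∨ (i = 1 ∧ f x = false ∧ f y = true) ∨
      (i = 2 ∧ f x = f y))) ⟨fun _ _ _ h => h.1, ?_, ?_⟩
  · rintro i a b c ⟨hab, h⟩ ⟨hbc, h'⟩
    rcases h with ⟨h0, h1, h2⟩ | ⟨h0, h1, h2⟩ | ⟨h0, h1⟩
    · rcases h' with ⟨h0', h1', h2'⟩ | ⟨h0', h1', h2'⟩ | ⟨h0', h1'⟩
      · rw [h2] at h1'; cases h1'
      · rw [h0] at h0'; exact absurd h0' (by decide)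
      · rw [h0] at h0'; exact absurd h0' (by decide)
    · rcases h' with ⟨h0', h1', h2'⟩ | ⟨h0', h1', h2'⟩ | ⟨h0', h1'⟩
      · rw [h0] at h0'; exact absurd h0' (by decide)
      · rw [h2] at h1'; cases h1'
      · rw [h0] at h0'; exact absurd h0' (by decide)
    · rcases h' with ⟨h0', h1', h2'⟩ | ⟨h0', h1', h2'⟩ | ⟨h0', h1'⟩
      · rw [h0] at h0'; exact absurd h0' (by decide)
      · rw [h0] at h0'; exact absurd h0' (by decide)
      · have key : ∀ x y, r x y → f x = f y → x < y := by
          intro x y hxy he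
          rcases (hr x y).1 hxy with h | h
          · exact h.1
          · exact absurd he (hf _ _ h.2)
        have hlt : a < c := (key _ _ hab h1).trans (key _ _ hbc h1')
        have hac : f a = f c := h1.trans h1'
        exact ⟨(hr a c).2 (Or.inl ⟨hlt, fun hA => hf _ _ hA hac⟩), Or.inr (Or.inr ⟨h0, hac⟩)⟩
  · intro u v huv
    rcases hu : f u with _ | _ <;> rcases hv : f v with _ | _
    · exact ⟨2, huv, Or.inr (Or.inr ⟨rfl, hu.trans hv.symm⟩)⟩
    · exact ⟨1, huv, Or.inr (Or.inl ⟨rfl, hu, hv⟩)⟩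
    · exact ⟨0, huv, Or.inl ⟨rfl, hu, hv⟩⟩
    · exact ⟨2, huv, Or.inr (Or.inr ⟨rfl, hu.trans hv.symm⟩)⟩

/-! ### Shift graphs have unbounded chromatic number -/

lemma shift_unbounded (d : ℕ) : ∀ (C : Type) [Finite C], ∃ n : ℕ, ∀ c : (Fin (d + 1) → ℕ) → C,
    ∃ a : Fin (d + 2) → ℕ, StrictMono a ∧ (∀ i, a i < n) ∧
      c (fun i => a i.castSucc) = c (fun i => a i.succ) := by
  induction d with
  | zero =>
    intro C _
    obtain ⟨m, ⟨e⟩⟩ := Finite.exists_equiv_fin C
    refine ⟨m + 1, fun c => ?_⟩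
    obtain ⟨x, y, hxy, h⟩ := Fintype.exists_ne_map_eq_of_card_lt
      (fun x : Fin (m + 1) => e (c (fun _ => (x : ℕ)))) (by simp)
    wlog hlt : x < y generalizing x y
    · exact this y x hxy.symm h.symm (lt_of_le_of_ne (not_lt.1 hlt) hxy.symm)
    have h' := e.injective h
    refine ⟨![(x : ℕ), (y : ℕ)], ?_, ?_, ?_⟩
    · rw [Fin.strictMono_iff_lt_succ]
      intro i
      fin_cases i
      simpa using hlt
    · intro i
      fin_cases i
      · exact x.2
      · exact y.2
    · have e1 : (fun i : Fin 1 => (![(x : ℕ), (y : ℕ)] : Fin 2 → ℕ) i.castSucc) = fun _ => (x : ℕ) := by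
        funext i
        fin_cases i
        rfl
      have e2 : (fun i : Fin 1 => (![(x : ℕ), (y : ℕ)] : Fin 2 → ℕ) i.succ) = fun _ => (y : ℕ) := by
        funext i
        fin_cases i
        rfl
      rw [e1, e2]
      exact h'
  | succ d ih =>
    intro C _
    obtain ⟨n, hn⟩ := ih (Set C)
    refine ⟨n, fun c => ?_⟩
    obtain ⟨a, ha, hb, hc⟩ := hn (fun x => {k | ∃ y : ℕ, y < n ∧ (∀ i, x i < y) ∧
      c (Fin.snoc x y) = k})
    have h1 : c a ∈ {k | ∃ y : ℕ, y < n ∧ (∀ i : Fin (d + 1), (fun i => a i.castSucc) i < y) ∧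
        c (Fin.snoc (fun i : Fin (d + 1) => a i.castSucc) y : Fin (d + 2) → ℕ) = k} := by
      refine ⟨a (Fin.last _), hb _, fun i => ha (Fin.castSucc_lt_last i), ?_⟩
      congr 1
      exact Fin.snoc_init_self a
    have h1' := (Set.ext_iff.1 hc (c a)).1 h1
    obtain ⟨y, hy, hy1, hy2⟩ := h1'
    have hlast : a (Fin.last (d + 1)) < y := hy1 (Fin.last d)
    refine ⟨Fin.snoc a y, ?_, ?_, ?_⟩
    · intro i j hij
      refine Fin.lastCases ?_ (fun j => ?_) j (motive := fun j => i < j →
        (Fin.snoc a y : Fin (d + 3) → ℕ) i < (Fin.snoc a y : Fin (d + 3) → ℕ) j) hij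
      · refine Fin.lastCases ?_ (fun i => ?_) i (motive := fun i => i < Fin.last _ →
          (Fin.snoc a y : Fin (d + 3) → ℕ) i < (Fin.snoc a y : Fin (d + 3) → ℕ) (Fin.last _))
        · intro h
          exact absurd h (lt_irrefl _)
        · intro _
          rw [Fin.snoc_castSucc, Fin.snoc_last]
          exact lt_of_le_of_lt (ha.monotone (Fin.le_last _)) hlast
      · intro hij'
        refine Fin.lastCases ?_ (fun i => ?_) i (motive := fun i => i < j.castSucc →
          (Fin.snoc a y : Fin (d + 3) → ℕ) i < (Fin.snoc a y : Fin (d + 3) → ℕ) j.castSucc) hij'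
        · intro h
          exact absurd (h.trans (Fin.castSucc_lt_last j)) (lt_irrefl _)
        · intro h
          rw [Fin.snoc_castSucc, Fin.snoc_castSucc]
          exact ha (by simpa using h)
    · intro i
      refine Fin.lastCases ?_ (fun i => ?_) i
      · rw [Fin.snoc_last]; exact hy
      · rw [Fin.snoc_castSucc]; exact hb i
    · have e1 : (fun i : Fin (d + 2) => (Fin.snoc a y : Fin (d + 3) → ℕ) i.castSucc) = a := by
        funext i
        rw [Fin.snoc_castSucc]
      have e2 : (fun i : Fin (d + 2) => (Fin.snoc a y : Fin (d + 3) → ℕ) i.succ)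
          = Fin.snoc (fun i : Fin (d + 1) => a i.succ) y := by
        funext i
        refine Fin.lastCases ?_ (fun i => ?_) i
        · rw [Fin.succ_last, Fin.snoc_last, Fin.snoc_last]
        · rw [Fin.succ_castSucc, Fin.snoc_castSucc, Fin.snoc_castSucc]
      rw [e1, e2]
      exact hy2.symm

/-! ### The tournaments -/

/-- `y` is the shift of `x`: `y_i = x_{i+1}`. -/
def Sh {d : ℕ} (x y : Fin d → ℕ) : Prop :=
  ∀ i j : Fin d, (j : ℕ) = i + 1 → y i = x j

lemma Sh.lt {d : ℕ} (hd : 2 ≤ d) {x y : Fin d → ℕ} (hx : StrictMono x) (hy : StrictMono y)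
    (h : Sh x y) : x < y := by
  have key : ∀ i, x i < y i := by
    intro i
    by_cases hi : (i : ℕ) + 1 < d
    · rw [h i ⟨i + 1, hi⟩ rfl]
      exact hx (by rw [Fin.lt_def]; simp)
    · have hi0 : 1 ≤ (i : ℕ) := by omega
      have h1 : y ⟨(i : ℕ) - 1, by omega⟩ = x i := h _ _ (by simp; omega)
      rw [← h1]
      exact hy (by rw [Fin.lt_def]; simp; omega)
  rw [Pi.lt_def]
  exact ⟨fun i => (key i).le, ⟨0, by omega⟩, key _⟩

/-- The vertices: increasing `d`-tuples of numbers below `n`. -/
def Vert (n d : ℕ) : Type := {x : Fin d → ℕ // StrictMono x ∧ ∀ i, x i < n}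

instance (n d : ℕ) : Finite (Vert n d) := by
  refine Finite.of_injective (β := Fin d → Fin n) (fun x i => ⟨x.1 i, x.2.2 i⟩) ?_
  intro x y h
  apply Subtype.ext
  funext i
  have := congrFun h i
  simpa using congrArg Fin.val this

/-- The vertex with given coordinates. -/
def mkV {n d : ℕ} (x : Fin d → ℕ) (h : StrictMono x ∧ ∀ i, x i < n) : Vert n d := ⟨x, h⟩

/-- The lexicographic order on vertices. -/
noncomputable instance (n d : ℕ) : LinearOrder (Vert n d) :=
  LinearOrder.lift' (fun x : Vert n d => toLex x.1)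
    (fun _ _ h => Subtype.ext (toLex.injective h))

lemma vert_lt {n d : ℕ} {x y : Vert n d} (h : x.1 < y.1) : x < y :=
  show toLex x.1 < toLex y.1 from Pi.toLex_strictMono h

/-- Shift adjacency. -/
def Adj {n d : ℕ} (x y : Vert n d) : Prop := Sh x.1 y.1 ∨ Sh y.1 x.1

/-- The arcs: follow the lexicographic order, except that shift-adjacent pairs are reversed. -/
def arc {n d : ℕ} (x y : Vert n d) : Prop := (x < y ∧ ¬ Adj x y) ∨ (y < x ∧ Adj x y)

lemma Adj.symm {n d : ℕ} {x y : Vert n d} (h : Adj x y) : Adj y x := Or.symm h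

lemma arc_tournament (n d : ℕ) : IsTournament (arc (n := n) (d := d)) where
  irrefl v h := by
    rcases h with h | h
    · exact lt_irrefl _ h.1
    · exact lt_irrefl _ h.1
  total u v h := by
    by_cases hA : Adj u v
    · rcases lt_or_gt_of_ne h with h1 | h1
      · exact Or.inr (Or.inr ⟨h1, hA.symm⟩)
      · exact Or.inl (Or.inr ⟨h1, hA⟩)
    · rcases lt_or_gt_of_ne h with h1 | h1
      · exact Or.inl (Or.inl ⟨h1, hA⟩)
      · exact Or.inr (Or.inl ⟨h1, fun h => hA h.symm⟩)
  asymm u v h h' := by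
    rcases h with h | h <;> rcases h' with h' | h'
    · exact lt_asymm h.1 h'.1
    · exact h.2 h'.2.symm
    · exact h'.2 h.2.symm
    · exact lt_asymm h.1 h'.1

/-- Every partial order decomposition needs many parts once `n` is large. -/
lemma arc_unbounded (d : ℕ) (hd : 2 ≤ d) (N : ℕ) : ∃ n : ℕ, N ≤ pod (arc (n := n) (d := d)) := by
  classical
  obtain ⟨n, hn⟩ := shift_unbounded (2 * d - 1) (Option (Fin N))
  refine ⟨n, le_pod (arc_tournament n d) fun m P hP => ?_⟩
  by_contra hlt
  push Not at hlt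
  have e2 : 2 * d - 1 + 1 = 2 * d := by omega
  have e3 : 2 * d - 1 + 2 = 2 * d + 1 := by omega
  -- even and odd parts of a tuple
  let ev : (Fin (2 * d - 1 + 1) → ℕ) → (Fin d → ℕ) := fun a i => a ⟨2 * i, by omega⟩
  let od : (Fin (2 * d - 1 + 1) → ℕ) → (Fin d → ℕ) := fun a i => a ⟨2 * i + 1, by omega⟩
  let Q : (Fin (2 * d - 1 + 1) → ℕ) → Fin m → Prop := fun a i =>
    ∃ (h1 : StrictMono (ev a) ∧ ∀ j, ev a j < n) (h2 : StrictMono (od a) ∧ ∀ j, od a j < n),
      P i (mkV (ev a) h1) (mkV (od a) h2)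
  let c : (Fin (2 * d - 1 + 1) → ℕ) → Option (Fin N) := fun a =>
    if h : ∃ i, Q a i then some (Fin.castLE hlt.le h.choose) else none
  obtain ⟨a, ha, hb, hc⟩ := hn c
  have hev : ∀ b : Fin (2 * d - 1 + 1) → ℕ, StrictMono b → (∀ i, b i < n) →
      (StrictMono (ev b) ∧ ∀ j, ev b j < n) := by
    intro b hb1 hb2
    refine ⟨fun i j hij => hb1 ?_, fun j => hb2 _⟩
    rw [Fin.lt_def] at hij ⊢
    simp only
    omega
  have hod : ∀ b : Fin (2 * d - 1 + 1) → ℕ, StrictMono b → (∀ i, b i < n) →
      (StrictMono (od b) ∧ ∀ j, od b j < n) := by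
    intro b hb1 hb2
    refine ⟨fun i j hij => hb1 ?_, fun j => hb2 _⟩
    rw [Fin.lt_def] at hij ⊢
    simp only
    omega
  -- interleaved tuples form an arc
  have harc : ∀ b : Fin (2 * d - 1 + 1) → ℕ, StrictMono b → (∀ i, b i < n) → ∃ i, Q b i := by
    intro b hb1 hb2
    have hlt' : ∀ i, ev b i < od b i := by
      intro i
      apply hb1
      rw [Fin.lt_def]
      simp
    have hvert : mkV (ev b) (hev b hb1 hb2) < mkV (od b) (hod b hb1 hb2) :=
      vert_lt (Pi.lt_def.2 ⟨fun i => (hlt' i).le, ⟨0, by omega⟩, hlt' _⟩)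
    have hnadj : ¬ Adj (mkV (ev b) (hev b hb1 hb2)) (mkV (od b) (hod b hb1 hb2)) := by
      rintro (h | h)
      · have h1 : od b ⟨0, by omega⟩ = ev b ⟨1, by omega⟩ := h ⟨0, by omega⟩ ⟨1, by omega⟩ rfl
        have h2 : od b ⟨0, by omega⟩ < ev b ⟨1, by omega⟩ := by
          apply hb1
          rw [Fin.lt_def]
          simp
        omega
      · have h1 : ev b ⟨0, by omega⟩ = od b ⟨1, by omega⟩ := h ⟨0, by omega⟩ ⟨1, by omega⟩ rfl
        have h2 : ev b ⟨0, by omega⟩ < od b ⟨1, by omega⟩ := by
          apply hb1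
          rw [Fin.lt_def]
          simp
        omega
    obtain ⟨i, hi⟩ := hP.2.2 _ _ (Or.inl ⟨hvert, hnadj⟩ :
      arc (mkV (ev b) (hev b hb1 hb2)) (mkV (od b) (hod b hb1 hb2)))
    exact ⟨i, hev b hb1 hb2, hod b hb1 hb2, hi⟩
  have hm0 : StrictMono (fun i : Fin (2 * d - 1 + 1) => a i.castSucc) :=
    fun i j hij => ha (by simpa using hij)
  have hm1 : StrictMono (fun i : Fin (2 * d - 1 + 1) => a i.succ) :=
    fun i j hij => ha (by simpa using hij)
  have hq0 := harc _ hm0 (fun i => hb _)
  have hq1 := harc _ hm1 (fun i => hb _)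
  have hc0 : c (fun i => a i.castSucc) = some (Fin.castLE hlt.le hq0.choose) := dif_pos hq0
  have hc1 : c (fun i => a i.succ) = some (Fin.castLE hlt.le hq1.choose) := dif_pos hq1
  rw [hc0, hc1] at hc
  have hcc : hq0.choose = hq1.choose := by
    have := Option.some.inj hc
    simpa [Fin.ext_iff] using this
  obtain ⟨g1, g2, g3⟩ := hq0.choose_spec
  obtain ⟨g4, g5, g6⟩ := hq1.choose_spec
  rw [← hcc] at g6
  have hmid : od (fun i => a i.castSucc) = ev (fun i => a i.succ) := by
    funext i
    rfl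
  have hmid' : mkV (od (fun i => a i.castSucc)) g2 = mkV (ev (fun i => a i.succ)) g4 :=
    Subtype.ext hmid
  rw [hmid'] at g3
  have h13 := hP.1 _ _ _ (hP.2.1 _ _ _ _ g3 g6)
  have hshift : Sh (ev (fun i => a i.castSucc)) (od (fun i => a i.succ)) := by
    intro i j hij
    show a _ = a _
    congr 1
    rw [Fin.ext_iff]
    simp only [Fin.val_succ, Fin.val_castSucc]
    omega
  have hlt2 : mkV (ev (fun i => a i.castSucc)) g1 < mkV (od (fun i => a i.succ)) g5 :=
    vert_lt (Sh.lt hd g1.1 g5.1 hshift)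
  rcases h13 with h | h
  · exact h.2 (Or.inl hshift)
  · exact lt_asymm hlt2 h.1

/-! ### Small sets are bipartite -/

/-- Following a walk of shift steps moves a value by the net number of steps. -/
lemma walk_shift {d : ℕ} {Y : Type} (H : SimpleGraph Y) (f : Y → (Fin d → ℕ))
    (hf : ∀ a b, H.Adj a b → Sh (f a) (f b) ∨ Sh (f b) (f a)) {x y : Y} (w : H.Walk x y) :
    ∃ t : ℤ, |t| ≤ w.length ∧ Even (t - w.length) ∧
      ∀ p q : Fin d, (q : ℤ) + t = p → w.length ≤ (p : ℕ) → (p : ℕ) + w.length < d →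
        f y q = f x p := by
  induction w with
  | nil =>
    refine ⟨0, by simp, by simp, ?_⟩
    intro p q h _ _
    have : p = q := by
      apply Fin.ext
      omega
    rw [this]
  | @cons a b c hab w ih =>
    obtain ⟨t, ht1, ht2, ht3⟩ := ih
    rw [SimpleGraph.Walk.length_cons]
    rcases hf _ _ hab with h | h
    · refine ⟨t + 1, ?_, ?_, ?_⟩
      · rw [abs_le] at ht1 ⊢
        push_cast
        constructor <;> linarith [ht1.1, ht1.2]
      · push_cast
        have : t + 1 - ((w.length : ℤ) + 1) = t - w.length := by ring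
        rw [this]
        exact ht2
      · intro p q hpq h1 h2
        have hp : 1 ≤ (p : ℕ) := by omega
        rw [ht3 ⟨(p : ℕ) - 1, by omega⟩ q (by push_cast [Nat.cast_sub hp]; linarith)
          (by simp; omega) (by simp; omega)]
        exact h _ _ (by simp; omega)
    · refine ⟨t - 1, ?_, ?_, ?_⟩
      · rw [abs_le] at ht1 ⊢
        push_cast
        constructor <;> linarith [ht1.1, ht1.2]
      · push_cast
        have : t - 1 - ((w.length : ℤ) + 1) = (t - w.length) - 2 := by ring
        rw [this]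
        exact ht2.sub (by norm_num)
      · intro p q hpq h1 h2
        have hp : (p : ℕ) + 1 < d := by omega
        rw [ht3 ⟨(p : ℕ) + 1, hp⟩ q (by push_cast; linarith) (by simp; omega) (by simp; omega)]
        exact (h _ _ rfl).symm

/-- There are no short odd closed walks. -/
lemma even_closed_walk {d : ℕ} {Y : Type} (H : SimpleGraph Y) (f : Y → (Fin d → ℕ))
    (hmono : ∀ a, StrictMono (f a))
    (hf : ∀ a b, H.Adj a b → Sh (f a) (f b) ∨ Sh (f b) (f a)) {x : Y} (w : H.Walk x x)
    (hw : 2 * w.length < d) : Even w.length := by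
  obtain ⟨t, ht1, ht2, ht3⟩ := walk_shift H f hf w
  rw [abs_le] at ht1
  have hp : w.length < d := by omega
  obtain ⟨q, hq⟩ : ∃ q : ℕ, (q : ℤ) = w.length - t := ⟨(w.length - t).toNat, by omega⟩
  have hqd : q < d := by omega
  have h := ht3 ⟨w.length, hp⟩ ⟨q, hqd⟩ (by simp only; omega) (by simp) (by simp only; omega)
  have h' := (hmono x).injective h
  have hqw : q = w.length := by
    have := congrArg Fin.val h'
    simpa using this
  have ht0 : t = 0 := by omega
  rw [ht0, zero_sub, even_neg] at ht2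
  exact_mod_cast ht2

/-- A finite graph without odd closed walks of length below twice the number of vertices is
bipartite. -/
lemma exists_bicolouring {Y : Type} [Fintype Y] (H : SimpleGraph Y)
    (h : ∀ (x : Y) (w : H.Walk x x), w.length < 2 * Fintype.card Y → Even w.length) :
    ∃ f : Y → Bool, ∀ a b, H.Adj a b → f a ≠ f b := by
  classical
  have hroot : ∀ a : Y, H.Reachable (H.connectedComponentMk a).out a := by
    intro a
    apply SimpleGraph.ConnectedComponent.exact
    exact Quot.out_eq _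
  let L : Y → ℕ := fun a => (hroot a).some.toPath.1.length
  refine ⟨fun a => decide (Even (L a)), ?_⟩
  intro a b hab heq
  have hcomp : H.connectedComponentMk a = H.connectedComponentMk b :=
    SimpleGraph.ConnectedComponent.sound hab.reachable
  have hout : (H.connectedComponentMk b).out = (H.connectedComponentMk a).out := by rw [hcomp]
  have hLa : L a < Fintype.card Y := ((hroot a).some.toPath).2.length_lt
  have hLb : L b < Fintype.card Y := ((hroot b).some.toPath).2.length_lt
  let w : H.Walk (H.connectedComponentMk a).out (H.connectedComponentMk a).out :=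
    ((hroot a).some.toPath.1.concat hab).append
      (((hroot b).some.toPath.1.copy hout rfl).reverse)
  have hw : w.length = L a + 1 + L b := by
    simp only [w, SimpleGraph.Walk.length_append, SimpleGraph.Walk.length_concat,
      SimpleGraph.Walk.length_reverse, SimpleGraph.Walk.length_copy, L]
  have hev := h _ w (by rw [hw]; omega)
  rw [hw] at hev
  have hiff : Even (L a) ↔ Even (L b) := by simpa using heq
  rw [Nat.even_add, Nat.even_add_one] at hev
  tauto

/-- Subtournaments of size at most `k` have `pod ≤ 3` when `d ≥ 4k + 2`. -/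
lemma arc_local {n d k : ℕ} (hd : 4 * k < d) (X : Finset (Vert n d)) (hX : X.card ≤ k) :
    pod (induced (arc (n := n) (d := d)) X) ≤ 3 := by
  classical
  have hd2 : 2 ≤ d ∨ k = 0 := by omega
  rcases hd2 with hd2 | hk
  · let H : SimpleGraph X :=
      { Adj := fun a b => Adj a.1 b.1
        symm := ⟨fun a b h => Adj.symm h⟩
        loopless := ⟨fun a h => by
          have h' : Sh a.1.1 a.1.1 := by
            rcases h with h | h <;> exact h
          exact lt_irrefl _ (Sh.lt hd2 a.1.2.1 a.1.2.1 h')⟩ }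
    obtain ⟨f, hf⟩ := exists_bicolouring H (fun x w hw => by
      refine even_closed_walk H (fun a => a.1.1) (fun a => a.1.2.1) (fun a b h => h) w ?_
      rw [Fintype.card_coe] at hw
      omega)
    refine pod_le_three (V := X) (A := fun a b => Adj a.1 b.1) (fun x y => ?_) f hf
    rfl
  · subst hk
    have hX0 : X = ∅ := Finset.card_eq_zero.1 (Nat.le_zero.1 hX)
    subst hX0
    refine (pod_le (m := 0) (P := fun i => i.elim0) ⟨fun i => i.elim0, fun i => i.elim0, ?_⟩).trans
      (by omega)
    intro u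
    exact absurd u.2 (Finset.notMem_empty _)

/-! ### Main results -/

/-- For all `k` and `N` there is a finite tournament with `pod ≥ N` all of whose subtournaments of
size at most `k` have `pod ≤ 3`. -/
theorem main (k N : ℕ) : ∃ (V : Type) (_ : Fintype V) (r : V → V → Prop), IsTournament r ∧
    N ≤ pod r ∧ ∀ X : Finset V, X.card ≤ k → pod (induced r X) ≤ 3 := by
  obtain ⟨n, hn⟩ := arc_unbounded (4 * k + 2) (by omega) N
  exact ⟨Vert n (4 * k + 2), Fintype.ofFinite _, arc, arc_tournament _ _, hn,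
    fun X hX => arc_local (by omega) X hX⟩

lemma card_of_triangle {V : Type} [Fintype V] {r : V → V → Prop} (hr : IsTournament r)
    {a b c : V} (h1 : r a b) (h2 : r b c) (h3 : r c a) : 3 ≤ Fintype.card V := by
  classical
  have hab : a ≠ b := by rintro rfl; exact hr.irrefl _ h1
  have hbc : b ≠ c := by rintro rfl; exact hr.irrefl _ h2
  have hac : a ≠ c := by rintro rfl; exact hr.irrefl _ h3
  have := Finset.card_le_univ ({a, b, c} : Finset V)
  rwa [Finset.card_eq_three.2 ⟨a, b, c, hab, hac, hbc, rfl⟩] at this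

/-- The complete answer: for the admissible pairs the assertion holds exactly when `s ≤ 3`. -/
theorem complete (k s : ℕ) (hs : 1 ≤ s) (h : Admissible k s) : LocalToGlobal k s ↔ s ≤ 3 := by
  classical
  constructor
  · rintro ⟨N, hN⟩
    obtain ⟨V, iV, r, hr, hpod, hloc⟩ := main k N
    obtain ⟨X, hX, hXs⟩ := hN V iV r hr hpod
    exact hXs.trans (hloc X hX)
  · intro hs3
    refine ⟨2, ?_⟩
    intro V iV r hr hpod
    obtain ⟨a, b, c, h1, h2, h3⟩ := exists_triangle hr hpod
    have hab : a ≠ b := by rintro rfl; exact hr.irrefl _ h1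
    have hbc : b ≠ c := by rintro rfl; exact hr.irrefl _ h2
    have hac : a ≠ c := by rintro rfl; exact hr.irrefl _ h3
    obtain ⟨V', iV', r', hr', hcard, hpod'⟩ := h
    by_cases hs1 : s = 1
    · have hk2 : 2 ≤ k := by
        refine le_trans ?_ hcard
        by_contra hc
        have hsub : Subsingleton V' := by
          rw [← Fintype.card_le_one_iff_subsingleton]; omega
        have : pod r' ≤ 0 := by
          refine pod_le (m := 0) (P := fun i => i.elim0)
            ⟨fun i => i.elim0, fun i => i.elim0, ?_⟩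
          intro u v huv
          rw [Subsingleton.elim u v] at huv
          exact absurd huv (hr'.irrefl _)
        omega
      refine ⟨{a, b}, le_trans Finset.card_le_two hk2, ?_⟩
      refine le_trans (le_of_eq hs1) (le_pod (induced_tournament hr _) fun m P hP => ?_)
      obtain ⟨i, hi⟩ := hP.2.2 ⟨a, by simp⟩ ⟨b, by simp⟩ h1
      have := i.2
      omega
    · have hk3 : 3 ≤ k := by
        obtain ⟨a', b', c', h1', h2', h3'⟩ := exists_triangle hr' (by omega)
        exact (card_of_triangle hr' h1' h2' h3').trans hcard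
      refine ⟨{a, b, c}, le_trans Finset.card_le_three hk3, ?_⟩
      exact hs3.trans (three_le_of_triangle (induced_tournament hr _)
        (a := ⟨a, by simp⟩) (b := ⟨b, by simp⟩) (c := ⟨c, by simp⟩) h1 h2 h3)

/-- Main theorem. -/
theorem result :
    (∀ k N : ℕ, ∃ (V : Type) (_ : Fintype V) (r : V → V → Prop), IsTournament r ∧
      N ≤ pod r ∧ ∀ X : Finset V, X.card ≤ k → pod (induced r X) ≤ 3) ∧
    (∀ k s : ℕ, 1 ≤ s → Admissible k s → (LocalToGlobal k s ↔ s ≤ 3)) ∧
    (∃ k : ℕ, 1 ≤ k ∧ Admissible k 4 ∧ ¬ LocalToGlobal k 4) := by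
  refine ⟨main, fun k s hs h => complete k s hs h, ?_⟩
  obtain ⟨V, iV, r, hr, hpod, -⟩ := main 0 4
  have hadm : Admissible (Fintype.card V + 1) 4 := ⟨V, iV, r, hr, Nat.le_succ _, hpod⟩
  refine ⟨Fintype.card V + 1, by omega, hadm, fun h => ?_⟩
  have := (complete _ 4 (by omega) hadm).1 h
  omega

end Pool.Agent.Results.MP_b90bcc_co.LocalToGlobalFails
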